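import Mathlib

/-!
# The triple uniform Good-Turing estimator: definitions and counting
-/

namespace Pool.Agent.Q227.GT

open Finset Nat

/-- The number `m_r` of symbols that occur exactly `r` times in `x`. -/
def mult {d : ℕ} (x : List (Fin d)) (r : ℕ) : ℕ :=
  (univ.filter (fun i : Fin d => x.count i = r)).card

/-- The triple uniform Good-Turing offline estimator. -/
noncomputable def q {d : ℕ} (x : List (Fin d)) : ℝ :=
  ((Nat.multinomial univ (fun i : Fin d => x.count i) : ℕ) : ℝ)⁻¹ *
  ((Nat.multinomial (range (x.length + 1)) (mult x) : ℕ) : ℝ)⁻¹ *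
  ((Fintype.card (Nat.Partition x.length) : ℕ) : ℝ)⁻¹

section Orbit

variable {A B : Type*} [Fintype A] [DecidableEq A] [DecidableEq B]

/-- the functions obtained from `h` by permuting the arguments -/
def orb (h : A → B) : Finset (A → B) := univ.image (fun σ : Equiv.Perm A => h ∘ σ)

theorem orb_card (h : A → B) :
    (orb h).card * Fintype.card {g : Equiv.Perm A // h ∘ g = h} = (Fintype.card A)! := by
  classical
  have h1 : (univ : Finset (Equiv.Perm A)).card = ∑ b ∈ orb h,
      (univ.filter (fun σ : Equiv.Perm A => h ∘ σ = b)).card := by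
    apply Finset.card_eq_sum_card_image
  rw [Finset.card_univ, Fintype.card_perm] at h1
  rw [h1, Finset.sum_const_nat (m := Fintype.card {g : Equiv.Perm A // h ∘ g = h})]
  intro b hb
  obtain ⟨τ, -, rfl⟩ := Finset.mem_image.1 hb
  rw [← Fintype.card_subtype]
  refine Fintype.card_congr ⟨fun σ => ⟨τ.symm.trans σ.1, ?_⟩, fun g => ⟨τ.trans g.1, ?_⟩, ?_, ?_⟩
  · have := σ.2
    funext a
    have h2 := congrFun this (τ.symm a)
    simpa using h2
  · have := g.2
    funext a
    have h2 := congrFun this (τ a)
    simpa using h2
  · intro σ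
    ext a
    simp
  · intro g
    ext a
    simp

theorem orb_card_le (h : A → B) : (orb h).card ≤ (Fintype.card A)! := by
  refine (Finset.card_image_le).trans ?_
  rw [Finset.card_univ, Fintype.card_perm]

theorem orb_card' (h : A → B) (T : Finset B) (hT : ∀ a, h a ∈ T) :
    (orb h).card * ∏ b ∈ T, ((univ.filter (fun a => h a = b)).card)! = (Fintype.card A)! := by
  classical
  rw [← orb_card h, DomMulAct.stabilizer_card']
  congr 1
  have hsub : univ.image h ⊆ T := by
    intro b hb
    obtain ⟨a, -, rfl⟩ := Finset.mem_image.1 hb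
    exact hT a
  rw [← Finset.prod_subset hsub]
  · refine Finset.prod_congr rfl fun b _ => ?_
    rw [Fintype.card_subtype]
  · intro b _ hb
    have : univ.filter (fun a => h a = b) = ∅ := by
      rw [Finset.filter_eq_empty_iff]
      intro a _ hab
      exact hb (Finset.mem_image.2 ⟨a, Finset.mem_univ _, hab⟩)
    rw [this]
    simp

theorem mem_orb {h h' : A → B}
    (hh : ∀ b, (univ.filter (fun a => h' a = b)).card = (univ.filter (fun a => h a = b)).card) :
    h' ∈ orb h := by
  classical
  have e : ∀ b, Nonempty ({a // h' a = b} ≃ {a // h a = b}) := by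
    intro b
    refine ⟨Fintype.equivOfCardEq ?_⟩
    rw [Fintype.card_subtype, Fintype.card_subtype]
    exact hh b
  refine Finset.mem_image.2 ⟨Equiv.ofFiberEquiv (fun b => (e b).some), Finset.mem_univ _, ?_⟩
  funext a
  exact Equiv.ofFiberEquiv_map (fun b => (e b).some) a

end Orbit

theorem count_ofFn {n d : ℕ} (x : Fin n → Fin d) (i : Fin d) :
    (List.ofFn x).count i = (univ.filter (fun t => x t = i)).card := by
  induction n with
  | zero => simp
  | succ n ih =>
    rw [List.ofFn_succ, List.count_cons, ih, Fin.card_filter_univ_succ]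
    by_cases h : x 0 = i
    · simp [h]
    · simp [h]

theorem sum_count {d : ℕ} (x : List (Fin d)) : ∑ i : Fin d, x.count i = x.length := by
  simpa using Multiset.sum_count_eq_card (s := (univ : Finset (Fin d)))
    (m := (x : Multiset (Fin d))) (fun a _ => Finset.mem_univ a)

theorem count_le {d : ℕ} (x : List (Fin d)) (i : Fin d) : x.count i ≤ x.length :=
  List.count_le_length

/-- the partition of `n` given by the counts -/
def part {d : ℕ} (x : List (Fin d)) : Nat.Partition x.length :=
  Nat.Partition.ofSums _ ((univ : Finset (Fin d)).val.map (fun i => x.count i)) (sum_count x)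

end Pool.Agent.Q227.GT
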