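import Pool.Agent.H671R2.PolyAuto

/-!
# Products and finitely supported functions are computable in polynomial time
-/

namespace Pool.Agent.NPC

variable {α β γ δ σ : Type} [TEnc α] [TEnc β] [TEnc γ] [TEnc δ] [TEnc σ]

theorem size_mul_le (x s : ℕ) : (x * s).size ≤ x.size + s.size := by
  rw [Nat.size_le, pow_add]
  exact Nat.mul_lt_mul'' (Nat.lt_size_self x) (Nat.lt_size_self s)

theorem Poly.natProd {l : α → List ℕ} (hl : Poly l) : Poly (fun a => (l a).prod) := by
  obtain ⟨r, hr⟩ := hl.sz_le
  refine (foldr (s := fun _ => 1) (F := fun _ x s => x * s) hl (const 1)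
    (mul (fst (snd id)) (snd (snd id))) (Polynomial.C 4 * r + Polynomial.C 1) ?_).congr fun a => ?_
  · intro a k hk
    have key : ∀ l : List ℕ, (l.foldr (fun x s => x * s) 1).size ≤ sz l := by
      intro l
      induction l with
      | nil => simp
      | cons x l ih =>
        rw [List.foldr_cons]
        set s := l.foldr (fun x s => x * s) 1
        have h4 := size_mul_le x s
        have h5 := size_le_sz x
        simp
        omega
    have h1 := sz_nat_le (((l a).drop k).foldr (fun x s => x * s) 1)
    have h2 := key ((l a).drop k)
    have h3 := sz_drop_le (l a) k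
    have h4 := hr a
    simp only [Polynomial.eval_add, Polynomial.eval_mul, Polynomial.eval_C]
    omega
  · rfl

theorem Poly.finsupp (L : List α) (F : α → β) (c : β) (hF : ∀ a, a ∉ L → F a = c) :
    Poly F := by
  classical
  have key : ∀ L : List α, Poly (fun a => if a ∈ L then F a else c) := by
    intro L
    induction L with
    | nil => simpa using Poly.const c
    | cons b L ih =>
      have h1 : Poly (fun a => if a = b then F b else if a ∈ L then F a else c) :=
        Poly.ite (Poly.decide_eq Poly.id (Poly.const b)) (Poly.const _) ih
      refine h1.congr fun a => ?_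
      by_cases h : a = b
      · subst h
        simp
      · simp [h]
  refine (key L).congr fun a => ?_
  by_cases h : a ∈ L
  · simp [h]
  · simp [h, hF a h]

theorem Poly.natPow {b : ℕ} {n : α → ℕ} (hn : UPoly n) : Poly (fun a => b ^ n a) :=
  (Poly.natProd (Poly.map (F := fun _ _ => b) (Poly.range_uPoly hn) (Poly.const b))).congr
    fun a => by simp

theorem Poly.fact {n : α → ℕ} (hn : UPoly n) : Poly (fun a => (n a).factorial) := by
  refine (Poly.natProd (Poly.map (F := fun _ i => i + 1) (Poly.range_uPoly hn)
    (by fun_prop))).congr fun a => ?_
  induction (n a) with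
  | zero => simp
  | succ k ih => rw [List.range_succ, List.map_append, List.prod_append, ih]; simp [Nat.factorial_succ, Nat.mul_comm]

theorem Poly.takeConst (N : ℕ) {l : α → List β} (hl : Poly l) : Poly (fun a => (l a).take N) := by
  have h1 : Poly (fun a => (((l a).zipIdx).filter (fun p => decide (p.2 < N))).map
      (fun p => p.1)) := by fun_prop
  refine h1.congr fun a => ?_
  have key : ∀ (l : List β) (k : ℕ), ((l.zipIdx k).filter (fun p => decide (p.2 < N))).map
      (fun p => p.1) = l.take (N - k) := by
    intro l
    induction l with
    | nil => intro k; simp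
    | cons b l ih =>
      intro k
      rw [List.zipIdx_cons]
      by_cases h : k < N
      · rw [List.filter_cons_of_pos (by simpa using h), List.map_cons, ih (k + 1)]
        obtain ⟨m, hm⟩ : ∃ m, N - k = m + 1 := ⟨N - k - 1, by omega⟩
        rw [hm, List.take_succ_cons, show N - (k + 1) = m by omega]
      · rw [List.filter_cons_of_neg (by simpa using h), ih (k + 1),
          show N - (k + 1) = 0 by omega, show N - k = 0 by omega]
        simp
  exact key (l a) 0

end Pool.Agent.NPC
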