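import Pool.Agent.Q227.GT.Mix
import Pool.Agent.Q227.GT.Pol

/-!
# Efficient online conversion of the triple uniform Good-Turing estimator
-/

namespace Pool.Agent.Q227.GT

open Finset Nat
open Pool.Agent.NPC (UPoly)

/-- A time-consistent estimator: a probability measure on infinite words, with values in `[0,1]`. -/
def TimeConsistent {d : ℕ} (Q : List (Fin d) → ℝ) : Prop :=
  (∀ x, 0 ≤ Q x ∧ Q x ≤ 1) ∧ Q [] = 1 ∧ ∀ x, Q x = ∑ a : Fin d, Q (x ++ [a])

/-- The exact value of `Q x` is a quotient of two natural numbers (in binary) computable from `x`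
in polynomial time. -/
def ExactPolyTime {d : ℕ} (Q : List (Fin d) → ℝ) : Prop :=
  ∃ A : List ℕ → ℕ × ℕ, NPC.Poly A ∧
    ∀ x : List (Fin d), Q x = ((A (x.map Fin.val)).1 : ℝ) / ((A (x.map Fin.val)).2 : ℝ)

/-- The regret `R_n` of `Q` against the Good-Turing family. -/
noncomputable def regret {d : ℕ} (Q : List (Fin d) → ℝ) (n : ℕ) : ℝ :=
  ⨆ z : Fin n → Fin d, Real.log (q (List.ofFn z) / Q (List.ofFn z))

variable {d : ℕ}

/-- finite table -/
def tab (d N : ℕ) (hd : 0 < d) (y : List ℕ) : ℚ :=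
  if y.length ≤ N ∧ ∀ a ∈ y, a < d then
    ∑ s ∈ range (N + 1), mu s (y.map (fun a => (⟨a % d, Nat.mod_lt _ hd⟩ : Fin d))) /
      ((s + 1) * (s + 2) : ℚ) else 0

theorem finite_words (d N : ℕ) : ∃ L : List (List ℕ), ∀ y : List ℕ, y.length ≤ N →
    (∀ a ∈ y, a < d) → y ∈ L := by
  have h : Set.Finite {y : List ℕ | y.length ≤ N ∧ ∀ a ∈ y, a < d} := by
    have h1 : Set.Finite {y : List (Fin d) | y.length ≤ N} := List.finite_length_le _ _
    refine (h1.image (List.map Fin.val)).subset ?_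
    rintro y ⟨h2, h3⟩
    refine ⟨y.pmap (fun a h => (⟨a, h⟩ : Fin d)) h3, ?_, ?_⟩
    · simpa using h2
    · rw [List.map_pmap]
      simp
  exact ⟨h.toFinset.toList, fun y h1 h2 => by simpa using ⟨h1, h2⟩⟩

theorem poly_tab_num (d N : ℕ) (hd : 0 < d) : NPC.Poly (fun y => (tab d N hd y).num.toNat) := by
  obtain ⟨L, hL⟩ := finite_words d N
  refine NPC.Poly.finsupp L _ 0 fun y hy => ?_
  have : ¬ (y.length ≤ N ∧ ∀ a ∈ y, a < d) := fun h => hy (hL y h.1 h.2)
  simp [tab, this]

theorem poly_tab_den (d N : ℕ) (hd : 0 < d) : NPC.Poly (fun y => (tab d N hd y).den) := by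
  obtain ⟨L, hL⟩ := finite_words d N
  refine NPC.Poly.finsupp L _ 1 fun y hy => ?_
  have : ¬ (y.length ≤ N ∧ ∀ a ∈ y, a < d) := fun h => hy (hL y h.1 h.2)
  simp [tab, this]

/-- numerator of Laplace's rule -/
def lnum (d : ℕ) (y : List ℕ) : ℕ :=
  ((List.range d).map (fun i => (y.count i)!)).prod * (d - 1)!

/-- the algorithm -/
def alg (d N : ℕ) (hd : 0 < d) (y : List ℕ) : ℕ × ℕ :=
  let t := y.take N
  let u := (tab d N hd t).num.toNat
  let v := (tab d N hd t).den * d ^ (y.length - N)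
  let a := lnum d y
  let b := (y.length + d - 1)! * (N + 2)
  (u * b + a * v, v * b)

theorem poly_count (i : List ℕ → ℕ) (hi : NPC.Poly i) : UPoly (fun y : List ℕ => y.count (i y)) := by
  refine UPoly.of_le ?_ (UPoly.length NPC.Poly.id) (fun y => List.count_le_length)
  have h1 : NPC.Poly (fun y : List ℕ => (y.filter (fun a => decide (a = i y))).length) := by
    fun_prop
  refine h1.congr fun y => ?_
  rw [List.count_eq_length_filter]
  rfl

theorem poly_lnum (d : ℕ) : NPC.Poly (lnum d) := by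
  unfold lnum
  have key : ∀ L : List ℕ, NPC.Poly (fun y : List ℕ => (L.map (fun i => (y.count i)!)).prod) := by
    intro L
    induction L with
    | nil => simpa using NPC.Poly.const 1
    | cons b L ih =>
      simp only [List.map_cons, List.prod_cons]
      exact NPC.Poly.mul (NPC.Poly.fact (poly_count _ (NPC.Poly.const b))) ih
  exact NPC.Poly.mul (key _) (NPC.Poly.const _)

theorem poly_alg (d N : ℕ) (hd : 0 < d) : NPC.Poly (alg d N hd) := by
  unfold alg
  have h1 := (poly_tab_num d N hd).comp (NPC.Poly.takeConst N (NPC.Poly.id (α := List ℕ)))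
  have h2 := (poly_tab_den d N hd).comp (NPC.Poly.takeConst N (NPC.Poly.id (α := List ℕ)))
  have h3 : NPC.Poly (fun y : List ℕ => d ^ (y.length - N)) :=
    NPC.Poly.natPow (UPoly.of_le (by fun_prop) (UPoly.length NPC.Poly.id) (fun y => Nat.sub_le _ _))
  have h4 : NPC.Poly (fun y : List ℕ => (y.length + d - 1)!) :=
    NPC.Poly.fact (UPoly.of_le (by fun_prop) (UPoly.add (UPoly.length NPC.Poly.id) (UPoly.const d))
      (fun y => Nat.sub_le _ _))
  have h5 := NPC.Poly.mul h4 (NPC.Poly.const (α := List ℕ) (N + 2))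
  have h6 := NPC.Poly.mul h2 h3
  exact NPC.Poly.pair (NPC.Poly.add (NPC.Poly.mul h1 h5) (NPC.Poly.mul (poly_lnum d) h6)) (NPC.Poly.mul h6 h5)

theorem tab_eq (N : ℕ) (hd : 0 < d) (x : List (Fin d)) (hx : x.length ≤ N) :
    tab d N hd (x.map Fin.val) = ∑ s ∈ range (N + 1), mu s x / ((s + 1) * (s + 2) : ℚ) := by
  unfold tab
  have h1 : (x.map Fin.val).map (fun a => (⟨a % d, Nat.mod_lt _ hd⟩ : Fin d)) = x := by
    rw [List.map_map]
    conv_rhs => rw [← List.map_id x]
    refine List.map_congr_left fun a _ => ?_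
    exact Fin.ext (Nat.mod_eq_of_lt a.2)
  rw [h1, if_pos]
  refine ⟨by simpa using hx, ?_⟩
  intro a ha
  obtain ⟨b, -, rfl⟩ := List.mem_map.1 ha
  exact b.2

theorem lnum_eq (x : List (Fin d)) :
    lnum d (x.map Fin.val) = (∏ i : Fin d, (x.count i)!) * (d - 1)! := by
  unfold lnum
  congr 1
  rw [← List.map_coe_finRange_eq_range, List.map_map, ← List.ofFn_eq_map, List.prod_ofFn]
  refine Finset.prod_congr rfl fun i _ => ?_
  simp only [Function.comp_apply]
  rw [List.count_map_of_injective _ _ Fin.val_injective]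

theorem alg_eq (N : ℕ) (hd : 0 < d) (x : List (Fin d)) :
    Qt N x = ((alg d N hd (x.map Fin.val)).1 : ℚ) / ((alg d N hd (x.map Fin.val)).2 : ℚ) := by
  unfold alg Qt
  simp only [List.length_map, ← List.map_take]
  have h0 : (x.take N).length ≤ N := List.length_take_le _ _
  have h1 := tab_eq N hd (x.take N) h0
  have h2 : ∑ s ∈ range (N + 1), mu s x / ((s + 1) * (s + 2) : ℚ) =
      tab d N hd ((x.take N).map Fin.val) / (d : ℚ) ^ (x.length - N) := by
    rw [h1, Finset.sum_div]
    refine Finset.sum_congr rfl fun s hs => ?_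
    rw [mu_take s N (by have := Finset.mem_range.1 hs; omega)]
    ring
  rw [h2]
  set T := tab d N hd ((x.take N).map Fin.val) with hT
  have h3 : 0 ≤ T := by
    rw [h1]
    exact Finset.sum_nonneg fun s _ => div_nonneg (mu_nonneg s _) (by positivity)
  have h4 : ((T.num.toNat : ℕ) : ℚ) = T * T.den := by
    have h5 : ((T.num.toNat : ℕ) : ℤ) = T.num := Int.toNat_of_nonneg (Rat.num_nonneg.2 h3)
    have h6 : ((T.num.toNat : ℕ) : ℚ) = (T.num : ℚ) := by exact_mod_cast congrArg (Int.cast (R := ℚ)) h5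
    rw [h6, Rat.mul_den_eq_num]
  have h5 : (T.den : ℚ) ≠ 0 := by exact_mod_cast T.den_nz
  have h6 : ((d : ℚ)) ^ (x.length - N) ≠ 0 := by positivity
  have h7 : (((x.length + d - 1)! : ℕ) : ℚ) ≠ 0 := by exact_mod_cast (Nat.factorial_pos _).ne'
  have h8 : ((N : ℚ) + 2) ≠ 0 := by positivity
  unfold lap
  rw [lnum_eq]
  push_cast
  rw [h4]
  push_cast at h7
  field_simp

/-- For every finite alphabet there is a rational-valued polynomial-time computable
time-consistent estimator with regret at most `2 ln (n+2)` against the triple uniform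
Good-Turing family. -/
theorem main (d : ℕ) (hd : 2 ≤ d) : ∃ Q : List (Fin d) → ℝ,
    TimeConsistent Q ∧ ExactPolyTime Q ∧ (∀ x, 0 < Q x) ∧
    ∀ n, regret Q n ≤ 2 * Real.log (n + 2) := by
  have hd0 : 0 < d := by omega
  have hpos : ∀ x : List (Fin d), 0 < Qt (d !) x := Qt_pos (d !)
  refine ⟨fun x => ((Qt (d !) x : ℚ) : ℝ), ⟨?_, ?_, ?_⟩, ⟨alg d (d !) hd0, poly_alg d _ hd0, ?_⟩,
    ?_, ?_⟩
  · have hle : ∀ x : List (Fin d), Qt (d !) x ≤ 1 := by
      intro x
      induction x using List.reverseRecOn with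
      | nil => rw [Qt_nil hd0]
      | append_singleton x a ih =>
        refine le_trans ?_ ih
        rw [← Qt_sum hd0 (d !) x]
        exact Finset.single_le_sum (f := fun a => Qt (d !) (x ++ [a]))
          (fun a _ => (hpos _).le) (Finset.mem_univ a)
    intro x
    simp only
    exact ⟨by exact_mod_cast (hpos x).le, by exact_mod_cast hle x⟩
  · simp only [Qt_nil hd0]
    norm_num
  · intro x
    simp only
    rw [← Qt_sum hd0]
    push_cast
    rfl
  · intro x
    simp only
    rw [alg_eq (d !) hd0 x]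
    push_cast
    rfl
  · intro x
    simp only
    exact_mod_cast hpos x
  · intro n
    have : Nonempty (Fin n → Fin d) := ⟨fun _ => ⟨0, hd0⟩⟩
    refine ciSup_le fun z => ?_
    have h1 := Qt_ge hd0 (d !) le_rfl (List.ofFn z)
    rw [List.length_ofFn] at h1
    have h2 := qr_pos (List.ofFn z)
    have h3 := hpos (List.ofFn z)
    rw [q_eq]
    have h4 : ((qr (List.ofFn z) : ℚ) : ℝ) / ((Qt (d !) (List.ofFn z) : ℚ) : ℝ) ≤
        ((n : ℝ) + 2) ^ 2 := by
      rw [div_le_iff₀ (by exact_mod_cast h3)]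
      exact_mod_cast h1
    have h5 : 0 < ((qr (List.ofFn z) : ℚ) : ℝ) / ((Qt (d !) (List.ofFn z) : ℚ) : ℝ) :=
      div_pos (by exact_mod_cast h2) (by exact_mod_cast h3)
    calc Real.log _ ≤ Real.log (((n : ℝ) + 2) ^ 2) := Real.log_le_log h5 h4
      _ = 2 * Real.log (n + 2) := by rw [Real.log_pow]; norm_num

end Pool.Agent.Q227.GT
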