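import Pool.Agent.Q227.GT.Count

/-!
# The Good-Turing estimator is a sub-probability and is dominated by `d!` times Laplace
-/

namespace Pool.Agent.Q227.GT

open Finset Nat

theorem orb_of_part {d n : ℕ} {f g : Fin d → ℕ}
    (hf : ((univ : Finset (Fin d)).val.map f).sum = n)
    (hg : ((univ : Finset (Fin d)).val.map g).sum = n)
    (h : Nat.Partition.ofSums n ((univ : Finset (Fin d)).val.map f) hf =
      Nat.Partition.ofSums n ((univ : Finset (Fin d)).val.map g) hg) : f ∈ orb g := by
  classical
  have key : ∀ (f : Fin d → ℕ) b, (univ.filter (fun a => f a = b)).card =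
      ((univ : Finset (Fin d)).val.map f).count b := by
    intro f b
    rw [Multiset.count_map, Finset.card_def, Finset.filter_val]
    congr 1
    exact Multiset.filter_congr fun a _ => eq_comm
  apply mem_orb
  intro b
  by_cases hb : b = 0
  · subst hb
    have h1 : ∀ (f : Fin d → ℕ) (hf : ((univ : Finset (Fin d)).val.map f).sum = n),
        (univ.filter (fun a => f a = 0)).card +
        (Nat.Partition.ofSums n ((univ : Finset (Fin d)).val.map f) hf).parts.card = d := by
      intro f hf
      have h2 : (Nat.Partition.ofSums n ((univ : Finset (Fin d)).val.map f) hf).parts.card =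
          (univ.filter (fun a => ¬ f a = 0)).card := by
        rw [Nat.Partition.ofSums_parts, Multiset.filter_map, Multiset.card_map, Finset.card_def,
          Finset.filter_val]
        rfl
      rw [h2, Finset.card_filter_add_card_filter_not, Finset.card_univ, Fintype.card_fin]
    have h2 := h1 f hf
    have h3 := h1 g hg
    rw [h] at h2
    omega
  · rw [key, key, ← Nat.Partition.count_ofSums_of_ne_zero hf hb, h,
      Nat.Partition.count_ofSums_of_ne_zero hg hb]

/-- counts of a word given as a function -/
def cf {n d : ℕ} (z : Fin n → Fin d) (i : Fin d) : ℕ := (univ.filter (fun t => z t = i)).card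

theorem sum_cf {n d : ℕ} (z : Fin n → Fin d) : ∑ i, cf z i = n := by
  have := sum_count (List.ofFn z)
  simp only [count_ofFn, List.length_ofFn] at this
  exact this

theorem cf_le {n d : ℕ} (z : Fin n → Fin d) (i : Fin d) : cf z i ≤ n := by
  have := Finset.card_le_univ (univ.filter (fun t => z t = i))
  simpa [cf] using this

/-- the partition of a word given as a function -/
def pf {n d : ℕ} (z : Fin n → Fin d) : Nat.Partition n :=
  Nat.Partition.ofSums n ((univ : Finset (Fin d)).val.map (cf z)) (sum_cf z)

theorem multinomial_cf {n d : ℕ} (z : Fin n → Fin d) :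
    Nat.multinomial univ (cf z) = (orb z).card := by
  have h1 := orb_card' z univ (fun _ => Finset.mem_univ _)
  have h2 := Nat.multinomial_spec univ (cf z)
  rw [sum_cf] at h2
  have h3 : 0 < ∏ i, (cf z i)! := Finset.prod_pos fun i _ => Nat.factorial_pos _
  rw [Fintype.card_fin] at h1
  apply Nat.eq_of_mul_eq_mul_left h3
  rw [h2, ← h1, Nat.mul_comm]
  rfl

theorem multinomial_mult {n d : ℕ} (z : Fin n → Fin d) :
    Nat.multinomial (range (n + 1)) (mult (List.ofFn z)) = (orb (cf z)).card := by
  have h1 := orb_card' (cf z) (range (n + 1)) (fun i => Finset.mem_range.2 (by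
    have := cf_le z i
    omega))
  have h2 := Nat.multinomial_spec (range (n + 1)) (mult (List.ofFn z))
  have h4 : ∀ r, mult (List.ofFn z) r = (univ.filter (fun i => cf z i = r)).card := by
    intro r
    simp only [mult, count_ofFn]
    rfl
  simp only [h4] at h2
  have h5 : ∑ r ∈ range (n + 1), (univ.filter (fun i => cf z i = r)).card = d := by
    rw [← Finset.card_eq_sum_card_fiberwise (f := cf z) (s := univ) (t := range (n + 1))]
    · simp
    · intro i _
      have := cf_le z i
      simp only [Finset.coe_range, Set.mem_Iio]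
      omega
  rw [h5] at h2
  have h3 : 0 < ∏ b ∈ range (n + 1), ((univ.filter (fun i => cf z i = b)).card)! :=
    Finset.prod_pos fun i _ => Nat.factorial_pos _
  rw [Fintype.card_fin] at h1
  apply Nat.eq_of_mul_eq_mul_left h3
  rw [h2, ← h1, Nat.mul_comm]

theorem q_ofFn {n d : ℕ} (z : Fin n → Fin d) : q (List.ofFn z) =
    (((orb z).card * (orb (cf z)).card * Fintype.card (Nat.Partition n) : ℕ) : ℝ)⁻¹ := by
  unfold q
  have h1 : (fun i : Fin d => (List.ofFn z).count i) = cf z := by
    funext i
    rw [count_ofFn]
    rfl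
  rw [h1, multinomial_cf, List.length_ofFn, multinomial_mult]
  push_cast
  rw [mul_inv, mul_inv]

theorem orb_card_congr {n d : ℕ} {y z : Fin n → Fin d} (h : cf y ∈ orb (cf z)) :
    (orb y).card = (orb z).card := by
  rw [← multinomial_cf, ← multinomial_cf]
  obtain ⟨σ, -, hσ⟩ := Finset.mem_image.1 h
  have h1 := Nat.multinomial_spec univ (cf z)
  have h2 := Nat.multinomial_spec univ (cf y)
  rw [sum_cf] at h1 h2
  have h3 : ∏ i, (cf y i)! = ∏ i, (cf z i)! := by
    rw [← hσ]
    exact Equiv.prod_comp σ (fun i => (cf z i)!)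
  rw [h3, ← h1] at h2
  exact Nat.eq_of_mul_eq_mul_left (Finset.prod_pos fun i _ => Nat.factorial_pos _) h2

theorem fibre_le {n d : ℕ} (z : Fin n → Fin d) :
    (univ.filter (fun y : Fin n → Fin d => pf y = pf z)).card ≤
      (orb z).card * (orb (cf z)).card := by
  classical
  refine Finset.card_le_mul_card_image_of_maps_to (f := cf) (t := orb (cf z)) ?_ _ ?_
  · intro y hy
    rw [Finset.mem_filter] at hy
    exact orb_of_part (sum_cf y) (sum_cf z) hy.2
  · intro f hf
    by_cases hne : ∃ y0 : Fin n → Fin d, cf y0 = f
    · obtain ⟨y0, rfl⟩ := hne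
      rw [← orb_card_congr hf]
      refine Finset.card_le_card ?_
      intro y hy
      rw [Finset.mem_filter] at hy
      exact mem_orb fun b => congrFun hy.2 b
    · rw [Finset.filter_eq_empty_iff.2]
      · simp
      · intro y _ hy
        exact hne ⟨y, hy⟩

theorem sum_inv_le {X L : Type*} [Fintype X] [Fintype L] [DecidableEq L] (P : X → L)
    (a : X → ℕ) (ha : ∀ x, (univ.filter (fun y => P y = P x)).card ≤ a x) :
    ∑ x, ((a x : ℕ) : ℝ)⁻¹ ≤ Fintype.card L := by
  classical
  have h1 : ∀ x, ((a x : ℕ) : ℝ)⁻¹ ≤ (((univ.filter (fun y => P y = P x)).card : ℕ) : ℝ)⁻¹ := by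
    intro x
    have h2 : 0 < (univ.filter (fun y => P y = P x)).card :=
      Finset.card_pos.2 ⟨x, by simp⟩
    exact inv_anti₀ (by exact_mod_cast h2) (by exact_mod_cast ha x)
  refine (Finset.sum_le_sum fun x _ => h1 x).trans ?_
  rw [← Finset.sum_fiberwise (s := univ) (g := P)]
  calc ∑ l : L, ∑ x ∈ univ.filter (fun x => P x = l),
        (((univ.filter (fun y => P y = P x)).card : ℕ) : ℝ)⁻¹
      ≤ ∑ l : L, (1 : ℝ) := by
        refine Finset.sum_le_sum fun l _ => ?_
        have h2 : ∑ x ∈ univ.filter (fun x => P x = l),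
            (((univ.filter (fun y => P y = P x)).card : ℕ) : ℝ)⁻¹ =
            ∑ x ∈ univ.filter (fun x => P x = l),
            (((univ.filter (fun y => P y = l)).card : ℕ) : ℝ)⁻¹ := by
          refine Finset.sum_congr rfl fun x hx => ?_
          rw [(Finset.mem_filter.1 hx).2]
        rw [h2, Finset.sum_const, nsmul_eq_mul]
        exact mul_inv_le_one
    _ = Fintype.card L := by simp

theorem mass_le_one (n d : ℕ) : ∑ z : Fin n → Fin d, q (List.ofFn z) ≤ 1 := by
  classical
  have h1 := sum_inv_le (pf (n := n) (d := d)) (fun z => (orb z).card * (orb (cf z)).card) fibre_le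
  have hp : (0 : ℝ) < Fintype.card (Nat.Partition n) := by
    exact_mod_cast Fintype.card_pos
  have h2 : ∑ z : Fin n → Fin d, q (List.ofFn z) =
      (∑ z : Fin n → Fin d, (((orb z).card * (orb (cf z)).card : ℕ) : ℝ)⁻¹) *
        ((Fintype.card (Nat.Partition n) : ℕ) : ℝ)⁻¹ := by
    rw [Finset.sum_mul]
    refine Finset.sum_congr rfl fun z _ => ?_
    rw [q_ofFn]
    push_cast
    rw [mul_inv (_ * _)]
  rw [h2, ← div_eq_mul_inv, div_le_one hp]
  exact h1

theorem choose_le (n d : ℕ) :
    (d + n - 1).choose n ≤ d ! * Fintype.card (Nat.Partition n) := by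
  classical
  have hs : ∀ s : Sym (Fin d) n, ((univ : Finset (Fin d)).val.map
      (fun i => (s : Multiset (Fin d)).count i)).sum = n := by
    intro s
    have := Multiset.sum_count_eq_card (s := (univ : Finset (Fin d)))
      (m := (s : Multiset (Fin d))) (fun a _ => Finset.mem_univ a)
    rw [Sym.card_coe] at this
    exact this
  have h1 := Sym.card_sym_eq_choose (α := Fin d) n
  rw [Fintype.card_fin] at h1
  rw [← h1]
  have h2 := Finset.card_le_mul_card_image (s := (univ : Finset (Sym (Fin d) n)))
    (f := fun s : Sym (Fin d) n => Nat.Partition.ofSums n ((univ : Finset (Fin d)).val.map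
      (fun i => (s : Multiset (Fin d)).count i)) (hs s)) (d !) (by
      intro b hb
      obtain ⟨s0, -, rfl⟩ := Finset.mem_image.1 hb
      have h3 := orb_card_le (fun i : Fin d => (s0 : Multiset (Fin d)).count i)
      rw [Fintype.card_fin] at h3
      refine le_trans ?_ h3
      refine Finset.card_le_card_of_injOn
        (fun s : Sym (Fin d) n => fun i => (s : Multiset (Fin d)).count i) ?_ ?_
      · intro s hs'
        rw [Finset.mem_coe, Finset.mem_filter] at hs'
        exact orb_of_part (hs s) (hs s0) hs'.2
      · intro s _ s' _ h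
        apply Sym.coe_injective
        exact Multiset.ext.2 fun i => congrFun h i)
  refine h2.trans (Nat.mul_le_mul_left _ ?_)
  exact Finset.card_le_univ _

end Pool.Agent.Q227.GT
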