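import Pool.Agent.Q227.GT.Mass

/-!
# The mixture of finitely many Good-Turing marginals with Laplace's rule
-/

namespace Pool.Agent.Q227.GT

open Finset Nat

variable {d : ℕ}

/-- the Good-Turing estimator as a rational number -/
def qr (x : List (Fin d)) : ℚ :=
  ((Nat.multinomial univ (fun i : Fin d => x.count i) : ℕ) : ℚ)⁻¹ *
  ((Nat.multinomial (range (x.length + 1)) (mult x) : ℕ) : ℚ)⁻¹ *
  ((Fintype.card (Nat.Partition x.length) : ℕ) : ℚ)⁻¹

theorem q_eq (x : List (Fin d)) : q x = ((qr x : ℚ) : ℝ) := by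
  unfold q qr
  push_cast
  rfl

theorem multinomial_pos' {A : Type*} (s : Finset A) (f : A → ℕ) : 0 < Nat.multinomial s f :=
  Nat.multinomial_pos s f

theorem qr_pos (x : List (Fin d)) : 0 < qr x := by
  unfold qr
  have h1 : (0 : ℚ) < ((Nat.multinomial univ (fun i : Fin d => x.count i) : ℕ) : ℚ) := by
    exact_mod_cast Nat.multinomial_pos _ _
  have h2 : (0 : ℚ) < ((Nat.multinomial (range (x.length + 1)) (mult x) : ℕ) : ℚ) := by
    exact_mod_cast Nat.multinomial_pos _ _
  have h3 : (0 : ℚ) < ((Fintype.card (Nat.Partition x.length) : ℕ) : ℚ) := by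
    exact_mod_cast Fintype.card_pos
  positivity

/-- Laplace's rule of succession -/
def lap (x : List (Fin d)) : ℚ :=
  (((∏ i : Fin d, (x.count i)!) * (d - 1)! : ℕ) : ℚ) / (((x.length + d - 1)! : ℕ) : ℚ)

theorem lap_pos (x : List (Fin d)) : 0 < lap x := by
  unfold lap
  have h1 : 0 < (∏ i : Fin d, (x.count i)!) * (d - 1)! :=
    Nat.mul_pos (Finset.prod_pos fun _ _ => Nat.factorial_pos _) (Nat.factorial_pos _)
  have h2 : (0 : ℚ) < (((∏ i : Fin d, (x.count i)!) * (d - 1)! : ℕ) : ℚ) := by exact_mod_cast h1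
  have h3 : (0 : ℚ) < (((x.length + d - 1)! : ℕ) : ℚ) := by exact_mod_cast Nat.factorial_pos _
  exact div_pos h2 h3

theorem lap_nil : lap ([] : List (Fin d)) = 1 := by
  unfold lap
  simp only [List.count_nil, Nat.factorial_zero, Finset.prod_const_one, List.length_nil,
    Nat.one_mul, Nat.zero_add]
  exact div_self (by exact_mod_cast (Nat.factorial_pos _).ne')

theorem lap_append (hd : 0 < d) (x : List (Fin d)) (a : Fin d) :
    lap (x ++ [a]) = lap x * ((x.count a + 1 : ℕ) : ℚ) / ((x.length + d : ℕ) : ℚ) := by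
  classical
  unfold lap
  have h1 : ∏ i : Fin d, ((x ++ [a]).count i)! = (x.count a + 1) * ∏ i : Fin d, (x.count i)! := by
    rw [← Finset.mul_prod_erase univ _ (Finset.mem_univ a),
      ← Finset.mul_prod_erase univ (fun i => (x.count i)!) (Finset.mem_univ a)]
    have h2 : (x ++ [a]).count a = x.count a + 1 := by simp
    have h3 : ∏ i ∈ univ.erase a, ((x ++ [a]).count i)! = ∏ i ∈ univ.erase a, (x.count i)! := by
      refine Finset.prod_congr rfl fun i hi => ?_
      have : a ≠ i := (Finset.ne_of_mem_erase hi).symm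
      rw [List.count_append, List.count_singleton]
      simp [this]
    rw [h3, h2, Nat.factorial_succ]
    ring
  have h4 : (x ++ [a]).length + d - 1 = (x.length + d - 1) + 1 := by
    simp only [List.length_append, List.length_singleton]
    omega
  rw [h1, h4, Nat.factorial_succ, show x.length + d - 1 + 1 = x.length + d by omega]
  have h5 : (((x.length + d - 1)! : ℕ) : ℚ) ≠ 0 := by exact_mod_cast (Nat.factorial_pos _).ne'
  have h6 : ((x.length + d : ℕ) : ℚ) ≠ 0 := by
    have : x.length + d ≠ 0 := by omega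
    exact_mod_cast this
  push_cast at h6 ⊢
  field_simp

theorem lap_sum (hd : 0 < d) (x : List (Fin d)) : ∑ a : Fin d, lap (x ++ [a]) = lap x := by
  simp only [lap_append hd]
  rw [← Finset.sum_div, ← Finset.mul_sum, ← Nat.cast_sum, Finset.sum_add_distrib, sum_count]
  simp only [Finset.sum_const, Finset.card_univ, Fintype.card_fin, smul_eq_mul, Nat.mul_one]
  have h6 : ((x.length + d : ℕ) : ℚ) ≠ 0 := by
    have : x.length + d ≠ 0 := by omega
    exact_mod_cast this
  field_simp

theorem q_le_lap (hd : 0 < d) (x : List (Fin d)) : qr x ≤ (d ! : ℕ) * lap x := by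
  unfold qr lap
  set n := x.length with hn
  have hm := Nat.multinomial_spec univ (fun i : Fin d => x.count i)
  rw [sum_count] at hm
  have hm' : ((∏ i : Fin d, (x.count i)! : ℕ) : ℚ) *
      ((Nat.multinomial univ (fun i : Fin d => x.count i) : ℕ) : ℚ) = ((n ! : ℕ) : ℚ) := by
    exact_mod_cast hm
  have h1 : (0 : ℚ) < ((Nat.multinomial univ (fun i : Fin d => x.count i) : ℕ) : ℚ) := by
    exact_mod_cast Nat.multinomial_pos _ _
  have h2 : (1 : ℚ) ≤ ((Nat.multinomial (range (n + 1)) (mult x) : ℕ) : ℚ) := by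
    exact_mod_cast Nat.multinomial_pos _ _
  have h3 : (0 : ℚ) < ((Fintype.card (Nat.Partition n) : ℕ) : ℚ) := by
    exact_mod_cast Fintype.card_pos
  have h4 := choose_le n d
  have h5 : (d + n - 1).choose n * (n ! * (d - 1)!) = (n + d - 1)! := by
    have := Nat.choose_mul_factorial_mul_factorial (n := d + n - 1) (k := n) (by omega)
    rw [show d + n - 1 - n = d - 1 by omega, show d + n - 1 = n + d - 1 by omega] at this
    rw [show d + n - 1 = n + d - 1 by omega, ← this]
    ring
  have h6 : (0 : ℚ) < (((n + d - 1)! : ℕ) : ℚ) := by exact_mod_cast Nat.factorial_pos _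
  have h7 : (((n + d - 1)! : ℕ) : ℚ) ≤ ((d ! : ℕ) : ℚ) *
      ((Fintype.card (Nat.Partition n) : ℕ) : ℚ) * (((n ! : ℕ) : ℚ) * (((d - 1)! : ℕ) : ℚ)) := by
    rw [← h5]
    have : (d + n - 1).choose n * (n ! * (d - 1)!) ≤
        d ! * Fintype.card (Nat.Partition n) * (n ! * (d - 1)!) := Nat.mul_le_mul_right _ h4
    exact_mod_cast this
  have h8 : ((Nat.multinomial (range (n + 1)) (mult x) : ℕ) : ℚ)⁻¹ ≤ 1 := inv_le_one_of_one_le₀ h2
  set M := ((Nat.multinomial univ (fun i : Fin d => x.count i) : ℕ) : ℚ)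
  set K := ((Nat.multinomial (range (n + 1)) (mult x) : ℕ) : ℚ)
  set P := ((Fintype.card (Nat.Partition n) : ℕ) : ℚ)
  set F := ((∏ i : Fin d, (x.count i)! : ℕ) : ℚ) with hF
  calc M⁻¹ * K⁻¹ * P⁻¹ ≤ M⁻¹ * 1 * P⁻¹ := by gcongr
    _ = 1 / (M * P) := by field_simp
    _ ≤ (d ! : ℕ) * (((∏ i : Fin d, (x.count i)!) * (d - 1)! : ℕ) : ℚ) / (((n + d - 1)! : ℕ) : ℚ) := by
      rw [div_le_div_iff₀ (by positivity) h6, Nat.cast_mul, ← hF]
      have e : ((d ! : ℕ) : ℚ) * (F * (((d - 1)! : ℕ) : ℚ)) * (M * P) =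
          ((d ! : ℕ) : ℚ) * P * (((n ! : ℕ) : ℚ) * (((d - 1)! : ℕ) : ℚ)) := by
        rw [← hm']
        ring
      rw [one_mul, e]
      exact h7
    _ = _ := by ring

/-- marginals of a function on words of length `|x| + k` -/
def marg (p : List (Fin d) → ℚ) : ℕ → List (Fin d) → ℚ
  | 0, x => p x
  | k + 1, x => ∑ a, marg p k (x ++ [a])

theorem marg_eq (p : List (Fin d) → ℚ) : ∀ (k : ℕ) (x : List (Fin d)),
    marg p k x = ∑ z : Fin k → Fin d, p (x ++ List.ofFn z)
  | 0, x => by simp [marg]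
  | k + 1, x => by
    rw [marg, ← (Fin.consEquiv (fun _ => Fin d)).sum_comp, Fintype.sum_prod_type]
    refine Finset.sum_congr rfl fun a _ => ?_
    rw [marg_eq p k]
    refine Finset.sum_congr rfl fun z _ => ?_
    congr 1
    simp [Fin.consEquiv, List.ofFn_succ]

theorem marg_nonneg {p : List (Fin d) → ℚ} (hp : ∀ x, 0 ≤ p x) (k : ℕ) (x : List (Fin d)) :
    0 ≤ marg p k x := by
  rw [marg_eq]
  exact Finset.sum_nonneg fun _ _ => hp _

/-- total mass at length `s` -/
def mass (d s : ℕ) : ℚ := ∑ z : Fin s → Fin d, qr (List.ofFn z)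

theorem mass_le (s : ℕ) : mass d s ≤ 1 := by
  have h := mass_le_one s d
  simp only [q_eq] at h
  unfold mass
  exact_mod_cast h

/-- a probability on words of length `s` dominating the Good-Turing estimator -/
def ps (s : ℕ) (x : List (Fin d)) : ℚ := qr x + (1 - mass d s) / (d : ℚ) ^ s

theorem ps_ge (s : ℕ) (x : List (Fin d)) : qr x ≤ ps s x := by
  unfold ps
  have h1 := mass_le (d := d) s
  have : 0 ≤ (1 - mass d s) / (d : ℚ) ^ s := div_nonneg (by linarith) (by positivity)
  linarith

theorem ps_nonneg (s : ℕ) (x : List (Fin d)) : 0 ≤ ps s x := (qr_pos x).le.trans (ps_ge s x)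

theorem marg_ps (hd : 0 < d) (s : ℕ) : marg (ps (d := d) s) s [] = 1 := by
  rw [marg_eq]
  simp only [ps, List.nil_append]
  rw [Finset.sum_add_distrib]
  change mass d s + _ = 1
  rw [Finset.sum_const, Finset.card_univ, Fintype.card_fun, Fintype.card_fin, Fintype.card_fin,
    nsmul_eq_mul]
  have : ((d : ℚ)) ^ s ≠ 0 := by positivity
  push_cast
  field_simp
  ring

/-- the measure on infinite words given by `ps s` followed by uniform symbols -/
def mu (s : ℕ) (x : List (Fin d)) : ℚ :=
  marg (ps s) (s - x.length) (x.take s) / (d : ℚ) ^ (x.length - s)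

theorem mu_nil (hd : 0 < d) (s : ℕ) : mu s ([] : List (Fin d)) = 1 := by
  simp [mu, marg_ps hd]

theorem mu_nonneg (s : ℕ) (x : List (Fin d)) : 0 ≤ mu s x :=
  div_nonneg (marg_nonneg (ps_nonneg s) _ _) (by positivity)

theorem mu_sum (hd : 0 < d) (s : ℕ) (x : List (Fin d)) : ∑ a, mu s (x ++ [a]) = mu s x := by
  unfold mu
  rcases Nat.lt_or_ge x.length s with h | h
  · have h1 : x.take s = x := List.take_of_length_le h.le
    obtain ⟨k, hk⟩ : ∃ k, s - x.length = k + 1 := ⟨s - x.length - 1, by omega⟩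
    rw [h1, hk, marg, show x.length - s = 0 by omega, pow_zero, div_one]
    refine Finset.sum_congr rfl fun a _ => ?_
    have h2 : (x ++ [a]).length = x.length + 1 := by simp
    rw [h2, List.take_of_length_le (by rw [h2]; omega), show s - (x.length + 1) = k by omega,
      show x.length + 1 - s = 0 by omega, pow_zero, div_one]
  · have h2 : ∀ a, (x ++ [a]).length = x.length + 1 := by simp
    have h3 : ∀ a, (x ++ [a]).take s = x.take s := fun a => List.take_append_of_le_length h
    simp only [h2, h3]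
    rw [show s - (x.length + 1) = 0 by omega, show s - x.length = 0 by omega,
      show x.length + 1 - s = (x.length - s) + 1 by omega, Finset.sum_const, Finset.card_univ,
      Fintype.card_fin, nsmul_eq_mul]
    have : (d : ℚ) ≠ 0 := by positivity
    field_simp
    ring

theorem mu_take (s N : ℕ) (hs : s ≤ N) (x : List (Fin d)) :
    mu s x = mu s (x.take N) / (d : ℚ) ^ (x.length - N) := by
  unfold mu
  rcases Nat.lt_or_ge N x.length with h | h
  · rw [List.take_take, Nat.min_eq_left hs, List.length_take, Nat.min_eq_left h.le,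
      show s - x.length = 0 by omega, show s - N = 0 by omega, div_div, ← pow_add]
    congr 2
    omega
  · rw [List.take_of_length_le h, show x.length - N = 0 by omega]
    simp

theorem mu_eq (s : ℕ) (x : List (Fin d)) (h : x.length = s) : mu s x = ps s x := by
  unfold mu
  subst h
  simp [marg]

/-- the mixture -/
def Qt (N : ℕ) (x : List (Fin d)) : ℚ :=
  ∑ s ∈ range (N + 1), mu s x / ((s + 1) * (s + 2) : ℚ) + lap x / (N + 2 : ℚ)

theorem sum_w (N : ℕ) : ∑ s ∈ range (N + 1), (1 : ℚ) / ((s + 1) * (s + 2) : ℚ) =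
    1 - 1 / (N + 2 : ℚ) := by
  induction N with
  | zero => norm_num
  | succ N ih =>
    rw [Finset.sum_range_succ, ih]
    have h1 : ((N : ℚ) + 2) ≠ 0 := by positivity
    have h2 : ((N : ℚ) + 3) ≠ 0 := by positivity
    push_cast
    field_simp
    ring

theorem Qt_nil (hd : 0 < d) (N : ℕ) : Qt N ([] : List (Fin d)) = 1 := by
  unfold Qt
  simp only [mu_nil hd, lap_nil]
  rw [sum_w]
  ring

theorem Qt_sum (hd : 0 < d) (N : ℕ) (x : List (Fin d)) : ∑ a, Qt N (x ++ [a]) = Qt N x := by
  unfold Qt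
  rw [Finset.sum_add_distrib, Finset.sum_comm, ← Finset.sum_div, lap_sum hd]
  congr 1
  refine Finset.sum_congr rfl fun s _ => ?_
  rw [← Finset.sum_div, mu_sum hd]

theorem Qt_pos (N : ℕ) (x : List (Fin d)) : 0 < Qt N x := by
  unfold Qt
  have h1 : 0 ≤ ∑ s ∈ range (N + 1), mu s x / ((s + 1) * (s + 2) : ℚ) :=
    Finset.sum_nonneg fun s _ => div_nonneg (mu_nonneg s x) (by positivity)
  have h2 : 0 < lap x / (N + 2 : ℚ) := div_pos (lap_pos x) (by positivity)
  linarith

theorem Qt_ge (hd : 0 < d) (N : ℕ) (hN : d ! ≤ N) (x : List (Fin d)) :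
    qr x ≤ ((x.length + 2 : ℕ) : ℚ) ^ 2 * Qt N x := by
  rcases Nat.lt_or_ge N x.length with h | h
  · have h1 : lap x / (N + 2 : ℚ) ≤ Qt N x := by
      unfold Qt
      have h1 : 0 ≤ ∑ s ∈ range (N + 1), mu s x / ((s + 1) * (s + 2) : ℚ) :=
        Finset.sum_nonneg fun s _ => div_nonneg (mu_nonneg s x) (by positivity)
      linarith
    have h2 := q_le_lap hd x
    have h3 : ((d ! : ℕ) : ℚ) ≤ ((x.length + 2 : ℕ) : ℚ) := by
      have : d ! ≤ x.length + 2 := by omega
      exact_mod_cast this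
    have h4 : ((N : ℚ) + 2) ≤ ((x.length + 2 : ℕ) : ℚ) := by
      have : N + 2 ≤ x.length + 2 := by omega
      exact_mod_cast this
    have h5 := lap_pos x
    have h6 : (0 : ℚ) < N + 2 := by positivity
    calc qr x ≤ (d ! : ℕ) * lap x := h2
      _ ≤ ((x.length + 2 : ℕ) : ℚ) * lap x := by gcongr
      _ = ((x.length + 2 : ℕ) : ℚ) * ((N : ℚ) + 2) * (lap x / (N + 2 : ℚ)) := by field_simp
      _ ≤ ((x.length + 2 : ℕ) : ℚ) * ((x.length + 2 : ℕ) : ℚ) * Qt N x := by
        gcongr
      _ = _ := by ring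
  · have h1 : mu x.length x / ((x.length + 1) * (x.length + 2) : ℚ) ≤ Qt N x := by
      unfold Qt
      have h1 : mu x.length x / ((x.length + 1) * (x.length + 2) : ℚ) ≤
          ∑ s ∈ range (N + 1), mu s x / ((s + 1) * (s + 2) : ℚ) :=
        Finset.single_le_sum (f := fun s : ℕ => mu s x / ((s + 1) * (s + 2) : ℚ))
          (fun s _ => div_nonneg (mu_nonneg s x) (by positivity))
          (Finset.mem_range.2 (by omega))
      have h2 : 0 < lap x / (N + 2 : ℚ) := div_pos (lap_pos x) (by positivity)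
      linarith
    rw [mu_eq _ x rfl] at h1
    have h2 := ps_ge x.length x
    have h3 : (0 : ℚ) < ((x.length + 1) * (x.length + 2) : ℚ) := by positivity
    rw [div_le_iff₀ h3] at h1
    have h4 := Qt_pos N x
    push_cast
    nlinarith

end Pool.Agent.Q227.GT
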